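import Pool.Graph.R_seed8.Helper967.FLDefs

set_option autoImplicit false

/-! First-order formulas over fields and over the two-sorted structures `(L, F)`, where `L` is a
Lie algebra over the field `F`; Gödel numbers; decidability of elementary theories. The terms
`FTerm`, `LTerm`, their values `val` and their Gödel numbers `code` are those of
`Pool.Graph.R_seed8.Helper967.FLDefs`. -/

namespace Pool.Agent.H79

open Pool.Agent.Helper967.FL

/-- First-order formulas in the language of rings `+, ·, 0, 1`; in `all i p` the variable with
number `i` is quantified. -/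
inductive FOForm
  | eq (s t : FTerm)
  | not (p : FOForm)
  | and (p q : FOForm)
  | or (p q : FOForm)
  | all (i : ℕ) (p : FOForm)

/-- First-order formulas in the two-sorted language of Lie algebras over fields (the field sort has
`+, ·, 0, 1`, the algebra sort has `+, 0, [·,·]`, and there is the scalar multiplication);
`allF i p` quantifies the variable number `i` of the field sort, `allL i p` the variable number `i`
of the algebra sort. -/
inductive LOForm
  | eqF (s t : FTerm)
  | eqL (s t : LTerm)
  | not (p : LOForm)
  | and (p q : LOForm)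
  | or (p q : LOForm)
  | allF (i : ℕ) (p : LOForm)
  | allL (i : ℕ) (p : LOForm)

/-- the variables of a term of the field sort -/
def fvars : FTerm → Set ℕ
  | .var i => {i}
  | .zero => ∅
  | .one => ∅
  | .add s t => fvars s ∪ fvars t
  | .mul s t => fvars s ∪ fvars t

/-- the variables of the field sort in a term of the algebra sort -/
def lvarsF : LTerm → Set ℕ
  | .var _ => ∅
  | .zero => ∅
  | .add s t => lvarsF s ∪ lvarsF t
  | .lie s t => lvarsF s ∪ lvarsF t
  | .smul c t => fvars c ∪ lvarsF t

/-- the variables of the algebra sort in a term of the algebra sort -/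
def lvarsL : LTerm → Set ℕ
  | .var i => {i}
  | .zero => ∅
  | .add s t => lvarsL s ∪ lvarsL t
  | .lie s t => lvarsL s ∪ lvarsL t
  | .smul _ t => lvarsL t

/-- free variables -/
def FOForm.free : FOForm → Set ℕ
  | eq s t => fvars s ∪ fvars t
  | not p => p.free
  | and p q => p.free ∪ q.free
  | or p q => p.free ∪ q.free
  | all i p => p.free \ {i}

/-- free variables of the field sort -/
def LOForm.freeF : LOForm → Set ℕ
  | eqF s t => fvars s ∪ fvars t
  | eqL s t => lvarsF s ∪ lvarsF t
  | not p => p.freeF
  | and p q => p.freeF ∪ q.freeF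
  | or p q => p.freeF ∪ q.freeF
  | allF i p => p.freeF \ {i}
  | allL _ p => p.freeF

/-- free variables of the algebra sort -/
def LOForm.freeL : LOForm → Set ℕ
  | eqF _ _ => ∅
  | eqL s t => lvarsL s ∪ lvarsL t
  | not p => p.freeL
  | and p q => p.freeL ∪ q.freeL
  | or p q => p.freeL ∪ q.freeL
  | allF _ p => p.freeL
  | allL i p => p.freeL \ {i}

/-- Truth of a formula in the field `F`, when the variables have the values `e`. -/
def FOForm.Holds {F : Type*} [Field F] : (ℕ → F) → FOForm → Prop
  | e, eq s t => s.val e = t.val e
  | e, not p => ¬ p.Holds e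
  | e, and p q => p.Holds e ∧ q.Holds e
  | e, or p q => p.Holds e ∨ q.Holds e
  | e, all i p => ∀ a : F, p.Holds (Function.update e i a)

/-- Truth of a formula in the two-sorted structure `(L, F)`, when the field variables have the
values `e` and the algebra variables have the values `g`. -/
def LOForm.Holds {F L : Type*} [Field F] [LieRing L] [LieAlgebra F L] :
    (ℕ → F) → (ℕ → L) → LOForm → Prop
  | e, _, eqF s t => s.val e = t.val e
  | e, g, eqL s t => s.val e g = t.val e g
  | e, g, not p => ¬ p.Holds e g
  | e, g, and p q => p.Holds e g ∧ q.Holds e g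
  | e, g, or p q => p.Holds e g ∨ q.Holds e g
  | e, g, allF i p => ∀ a : F, p.Holds (Function.update e i a) g
  | e, g, allL i p => ∀ a : L, p.Holds e (Function.update g i a)

/-- Gödel numbers -/
def FOForm.code : FOForm → ℕ
  | eq s t => Nat.pair 0 (Nat.pair s.code t.code)
  | not p => Nat.pair 1 p.code
  | and p q => Nat.pair 2 (Nat.pair p.code q.code)
  | or p q => Nat.pair 3 (Nat.pair p.code q.code)
  | all i p => Nat.pair 4 (Nat.pair i p.code)

/-- Gödel numbers -/
def LOForm.code : LOForm → ℕ
  | eqF s t => Nat.pair 0 (Nat.pair s.code t.code)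
  | eqL s t => Nat.pair 1 (Nat.pair s.code t.code)
  | not p => Nat.pair 2 p.code
  | and p q => Nat.pair 3 (Nat.pair p.code q.code)
  | or p q => Nat.pair 4 (Nat.pair p.code q.code)
  | allF i p => Nat.pair 5 (Nat.pair i p.code)
  | allL i p => Nat.pair 6 (Nat.pair i p.code)

/-- The elementary theory `Th(F)` of the field `F` is decidable: some algorithm, given the Gödel
number of a sentence (a formula without free variables), decides whether it is true in `F`. -/
def FieldTheoryDecidable (F : Type*) [Field F] : Prop :=
  ∃ f : ℕ → Bool, Computable f ∧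
    ∀ φ : FOForm, φ.free = ∅ → (f φ.code = true ↔ ∀ e : ℕ → F, φ.Holds e)

/-- The elementary theory `Th(L)` of the Lie algebra `L` over `F`, as a two-sorted structure
`(L, F)`, is decidable: some algorithm, given the Gödel number of a sentence, decides whether it is
true in `(L, F)`. -/
def LieTheoryDecidable (F L : Type*) [Field F] [LieRing L] [LieAlgebra F L] : Prop :=
  ∃ f : ℕ → Bool, Computable f ∧ ∀ φ : LOForm, φ.freeF = ∅ → φ.freeL = ∅ →
    (f φ.code = true ↔ ∀ (e : ℕ → F) (g : ℕ → L), φ.Holds e g)

end Pool.Agent.H79
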