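import Pool.Agent.H79.FODefs
import Pool.Graph.R_seed8.Helper967.FL10
import Pool.Graph.R_seed8.Helper967.AD1

set_option autoImplicit false

/-! The elementary theory of every noncommutative free Lie algebra over a field of characteristic
zero is undecidable, since the universal theory is. -/

namespace Pool.Agent.H79

open Primrec Pool.Agent.Helper967.FL Pool.Agent.Helper967.AD

/-- quantifier-free formulas as first-order formulas -/
def emb : LForm → LOForm
  | .eqF s t => .eqF s t
  | .eqL s t => .eqL s t
  | .not p => .not (emb p)
  | .and p q => .and (emb p) (emb q)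
  | .or p q => .or (emb p) (emb q)

theorem emb_code (p : LForm) : (emb p).code = p.code := by
  induction p with
  | eqF s t => rfl
  | eqL s t => rfl
  | not p hp => rw [emb, LOForm.code, hp]; rfl
  | and p q hp hq => rw [emb, LOForm.code, hp, hq]; rfl
  | or p q hp hq => rw [emb, LOForm.code, hp, hq]; rfl

theorem emb_holds {F L : Type*} [Field F] [LieRing L] [LieAlgebra F L] (e : ℕ → F) (g : ℕ → L)
    (p : LForm) : (emb p).Holds e g ↔ p.Holds e g := by
  induction p with
  | eqF s t => rfl
  | eqL s t => rfl
  | not p hp => rw [emb, LOForm.Holds, hp]; rfl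
  | and p q hp hq => rw [emb, LOForm.Holds, hp, hq]; rfl
  | or p q hp hq => rw [emb, LOForm.Holds, hp, hq]; rfl

theorem le_code1 {k a : ℕ} : a ≤ Nat.pair k a := Nat.right_le_pair k a
theorem le_code2 {k a b : ℕ} : a ≤ Nat.pair k (Nat.pair a b) :=
  (Nat.left_le_pair a b).trans (Nat.right_le_pair k _)
theorem le_code3 {k a b : ℕ} : b ≤ Nat.pair k (Nat.pair a b) :=
  (Nat.right_le_pair a b).trans (Nat.right_le_pair k _)

theorem fvars_le (t : FTerm) : ∀ i ∈ fvars t, i ≤ t.code := by
  induction t with
  | var j => intro i hi; rw [Set.mem_singleton_iff.1 hi]; exact le_code1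
  | zero => intro i hi; exact absurd hi (Set.notMem_empty i)
  | one => intro i hi; exact absurd hi (Set.notMem_empty i)
  | add s t hs ht =>
    intro i hi
    rcases hi with hi | hi
    · exact (hs i hi).trans le_code2
    · exact (ht i hi).trans le_code3
  | mul s t hs ht =>
    intro i hi
    rcases hi with hi | hi
    · exact (hs i hi).trans le_code2
    · exact (ht i hi).trans le_code3

theorem lvarsF_le (t : LTerm) : ∀ i ∈ lvarsF t, i ≤ t.code := by
  induction t with
  | var j => intro i hi; exact absurd hi (Set.notMem_empty i)
  | zero => intro i hi; exact absurd hi (Set.notMem_empty i)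
  | add s t hs ht =>
    intro i hi
    rcases hi with hi | hi
    · exact (hs i hi).trans le_code2
    · exact (ht i hi).trans le_code3
  | lie s t hs ht =>
    intro i hi
    rcases hi with hi | hi
    · exact (hs i hi).trans le_code2
    · exact (ht i hi).trans le_code3
  | smul c t ht =>
    intro i hi
    rcases hi with hi | hi
    · exact (fvars_le c i hi).trans le_code2
    · exact (ht i hi).trans le_code3

theorem lvarsL_le (t : LTerm) : ∀ i ∈ lvarsL t, i ≤ t.code := by
  induction t with
  | var j => intro i hi; rw [Set.mem_singleton_iff.1 hi]; exact le_code1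
  | zero => intro i hi; exact absurd hi (Set.notMem_empty i)
  | add s t hs ht =>
    intro i hi
    rcases hi with hi | hi
    · exact (hs i hi).trans le_code2
    · exact (ht i hi).trans le_code3
  | lie s t hs ht =>
    intro i hi
    rcases hi with hi | hi
    · exact (hs i hi).trans le_code2
    · exact (ht i hi).trans le_code3
  | smul c t ht =>
    intro i hi
    exact (ht i hi).trans le_code3

theorem freeF_le (p : LForm) : ∀ i ∈ (emb p).freeF, i ≤ p.code := by
  induction p with
  | eqF s t =>
    intro i hi
    rcases hi with hi | hi
    · exact (fvars_le s i hi).trans le_code2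
    · exact (fvars_le t i hi).trans le_code3
  | eqL s t =>
    intro i hi
    rcases hi with hi | hi
    · exact (lvarsF_le s i hi).trans le_code2
    · exact (lvarsF_le t i hi).trans le_code3
  | not p hp => intro i hi; exact (hp i hi).trans le_code1
  | and p q hp hq =>
    intro i hi
    rcases hi with hi | hi
    · exact (hp i hi).trans le_code2
    · exact (hq i hi).trans le_code3
  | or p q hp hq =>
    intro i hi
    rcases hi with hi | hi
    · exact (hp i hi).trans le_code2
    · exact (hq i hi).trans le_code3

theorem freeL_le (p : LForm) : ∀ i ∈ (emb p).freeL, i ≤ p.code := by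
  induction p with
  | eqF s t => intro i hi; exact absurd hi (Set.notMem_empty i)
  | eqL s t =>
    intro i hi
    rcases hi with hi | hi
    · exact (lvarsL_le s i hi).trans le_code2
    · exact (lvarsL_le t i hi).trans le_code3
  | not p hp => intro i hi; exact (hp i hi).trans le_code1
  | and p q hp hq =>
    intro i hi
    rcases hi with hi | hi
    · exact (hp i hi).trans le_code2
    · exact (hq i hi).trans le_code3
  | or p q hp hq =>
    intro i hi
    rcases hi with hi | hi
    · exact (hp i hi).trans le_code2
    · exact (hq i hi).trans le_code3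

/-- universal closure -/
def clo (l : List ℕ) (p : LOForm) : LOForm := l.foldr (fun i p => .allF i (.allL i p)) p

theorem clo_freeF (l : List ℕ) (p : LOForm) : (clo l p).freeF = p.freeF \ {i | i ∈ l} := by
  induction l with
  | nil => simp [clo]
  | cons a l ih =>
    have h : (clo (a :: l) p).freeF = (clo l p).freeF \ {a} := rfl
    rw [h, ih]
    ext i
    simp only [Set.mem_sdiff, Set.mem_ofPred_eq, Set.mem_singleton_iff, List.mem_cons]
    tauto

theorem clo_freeL (l : List ℕ) (p : LOForm) : (clo l p).freeL = p.freeL \ {i | i ∈ l} := by
  induction l with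
  | nil => simp [clo]
  | cons a l ih =>
    have h : (clo (a :: l) p).freeL = (clo l p).freeL \ {a} := rfl
    rw [h, ih]
    ext i
    simp only [Set.mem_sdiff, Set.mem_ofPred_eq, Set.mem_singleton_iff, List.mem_cons]
    tauto

theorem clo_holds {F L : Type*} [Field F] [LieRing L] [LieAlgebra F L] (l : List ℕ)
    (p : LOForm) : (∀ (e : ℕ → F) (g : ℕ → L), (clo l p).Holds e g) ↔
      ∀ (e : ℕ → F) (g : ℕ → L), p.Holds e g := by
  induction l with
  | nil => rfl
  | cons a l ih =>
    rw [← ih]
    have h : ∀ (e : ℕ → F) (g : ℕ → L), (clo (a :: l) p).Holds e g ↔ ∀ (x : F) (y : L),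
      (clo l p).Holds (Function.update e a x) (Function.update g a y) := fun e g => Iff.rfl
    constructor
    · intro H e g
      have := (h e g).1 (H e g) (e a) (g a)
      rwa [Function.update_eq_self, Function.update_eq_self] at this
    · intro H e g
      exact (h e g).2 fun x y => H _ _

/-- the code of the universal closure -/
def cloC (n : ℕ) : ℕ :=
  (List.range (n + 1)).foldr (fun i c => Nat.pair 5 (Nat.pair i (Nat.pair 6 (Nat.pair i c)))) n

theorem cloC_primrec : Primrec cloC := by
  refine Primrec.list_foldr (f := fun n : ℕ => List.range (n + 1)) (g := fun n : ℕ => n)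
    (h := fun (_ : ℕ) (z : ℕ × ℕ) => Nat.pair 5 (Nat.pair z.1 (Nat.pair 6 (Nat.pair z.1 z.2))))
    (Primrec.list_range.comp Primrec.succ) Primrec.id ?_
  have h1 : Primrec fun q : ℕ × (ℕ × ℕ) => q.2.1 := fst.comp snd
  have h2 : Primrec fun q : ℕ × (ℕ × ℕ) => q.2.2 := snd.comp snd
  exact Primrec₂.natPair.comp (const 5) (Primrec₂.natPair.comp h1
    (Primrec₂.natPair.comp (const 6) (Primrec₂.natPair.comp h1 h2)))

theorem clo_code (l : List ℕ) (p : LOForm) : (clo l p).code =
    l.foldr (fun i c => Nat.pair 5 (Nat.pair i (Nat.pair 6 (Nat.pair i c)))) p.code := by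
  induction l with
  | nil => rfl
  | cons a l ih =>
    rw [List.foldr_cons, ← ih]
    rfl

/-- a decidable elementary theory has a decidable universal part -/
theorem universal_of_theory {F L : Type*} [Field F] [LieRing L] [LieAlgebra F L]
    (h : LieTheoryDecidable F L) : LieUniversalTheoryDecidable F L := by
  obtain ⟨f, hf, hff⟩ := h
  refine ⟨fun n => f (cloC n), hf.comp cloC_primrec.to_comp, fun φ => ?_⟩
  have hc : cloC φ.code = (clo (List.range (φ.code + 1)) (emb φ)).code := by
    rw [clo_code, emb_code, cloC]
  have h1 : (clo (List.range (φ.code + 1)) (emb φ)).freeF = ∅ := by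
    rw [clo_freeF]
    ext i
    simp only [Set.mem_sdiff, Set.mem_ofPred_eq, List.mem_range, Set.mem_empty_iff_false, iff_false,
      not_and, not_not]
    intro hi
    have := freeF_le φ i hi
    omega
  have h2 : (clo (List.range (φ.code + 1)) (emb φ)).freeL = ∅ := by
    rw [clo_freeL]
    ext i
    simp only [Set.mem_sdiff, Set.mem_ofPred_eq, List.mem_range, Set.mem_empty_iff_false, iff_false,
      not_and, not_not]
    intro hi
    have := freeL_le φ i hi
    omega
  change f (cloC φ.code) = true ↔ _
  rw [hc, hff _ h1 h2, clo_holds]
  exact forall_congr' fun e => forall_congr' fun g => emb_holds e g φ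

/-- The elementary theory of a free Lie algebra of rank at least two over a field of characteristic
zero is undecidable. -/
theorem lie_theory_undecidable (F : Type*) [Field F] [CharZero F] (X : Type*) [Nontrivial X] :
    ¬ LieTheoryDecidable F (FreeLieAlgebra F X) := fun h =>
  lie_undecidable F X (universal_of_theory h)

end Pool.Agent.H79
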