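import Mathlib

set_option autoImplicit false

/-! Elimination of one existential quantifier over algebraically closed fields: algebraic part. -/

namespace Pool.Agent.H79

open Polynomial

/-- the polynomial `s X^d + l_{d-1} X^{d-1} + ... + l_0` -/
noncomputable def mkP {R : Type*} [CommRing R] (s : R) (l : List R) : R[X] :=
  l.foldr (fun c acc => C c + X * acc) (C s)

theorem exists_mkP {R : Type*} [CommRing R] (d : ℕ) (f : R[X]) (hf : f.natDegree ≤ d) :
    ∃ l : List R, l.length = d ∧ mkP (f.coeff d) l = f := by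
  induction d generalizing f with
  | zero =>
    refine ⟨[], rfl, ?_⟩
    rw [mkP, List.foldr_nil]
    exact (eq_C_of_natDegree_le_zero hf).symm
  | succ d ih =>
    have h1 : f.divX.natDegree ≤ d := by
      rw [natDegree_divX_eq_natDegree_tsub_one]; omega
    obtain ⟨l, hl, he⟩ := ih _ h1
    refine ⟨f.coeff 0 :: l, by simp [hl], ?_⟩
    have h2 : f.divX.coeff d = f.coeff (d + 1) := by rw [coeff_divX]
    rw [mkP, List.foldr_cons, ← mkP, ← h2, he, add_comm, mul_comm]
    exact f.divX_mul_X_add

theorem map_mkP {R S : Type*} [CommRing R] [CommRing S] (φ : R →+* S) (s : R) (l : List R) :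
    (mkP s l).map φ = mkP (φ s) (l.map φ) := by
  induction l with
  | nil => simp [mkP]
  | cons c l ih =>
    rw [mkP, List.foldr_cons, ← mkP, Polynomial.map_add, Polynomial.map_mul, map_C, map_X, ih,
      List.map_cons, mkP, mkP, List.foldr_cons]

/-- lifting lists along a surjective ring homomorphism -/
theorem exists_lift {R S : Type*} {φ : R → S} (h : Function.Surjective φ) (l : List S) :
    ∃ l' : List R, l'.map φ = l := by
  induction l with
  | nil => exact ⟨[], rfl⟩
  | cons a l ih =>
    obtain ⟨l', rfl⟩ := ih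
    obtain ⟨a', rfl⟩ := h a
    exact ⟨a' :: l', rfl⟩

/-- clearing denominators of finitely many polynomials -/
theorem clear {B K : Type*} [CommRing B] [IsDomain B] [Field K] [Algebra B K] [IsFractionRing B K]
    (f : K[X]) : ∃ b : B, b ≠ 0 ∧ ∃ g : B[X], g.map (algebraMap B K) = C (algebraMap B K b) * f := by
  obtain ⟨b, hbm, hb⟩ := IsLocalization.integerNormalization_spec (nonZeroDivisors B) (S := K) f
  refine ⟨b, nonZeroDivisors.ne_zero hbm, IsLocalization.integerNormalization (nonZeroDivisors B) f, ?_⟩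
  rw [hb]
  ext n
  rw [coeff_smul, coeff_C_mul, Algebra.smul_def]

theorem clear2 {B K : Type*} [CommRing B] [IsDomain B] [Field K] [Algebra B K] [IsFractionRing B K]
    (L : List K[X]) : ∃ b : B, b ≠ 0 ∧ ∀ f ∈ L, ∃ g : B[X],
      g.map (algebraMap B K) = C (algebraMap B K b) * f := by
  induction L with
  | nil => exact ⟨1, one_ne_zero, by simp⟩
  | cons f L ih =>
    obtain ⟨b, hb, h⟩ := ih
    obtain ⟨c, hc, g, hg⟩ := clear (B := B) f
    refine ⟨b * c, mul_ne_zero hb hc, ?_⟩
    intro f' hf'
    rcases List.mem_cons.1 hf' with rfl | hf'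
    · refine ⟨C b * g, ?_⟩
      rw [Polynomial.map_mul, hg, map_C, map_mul, map_mul, mul_assoc]
    · obtain ⟨g', hg'⟩ := h f' hf'
      refine ⟨C c * g', ?_⟩
      rw [Polynomial.map_mul, hg', map_C, map_mul, map_mul]
      ring

/-- the two alternatives over a field `K`, for the system `a = 0 (a ∈ A), q ≠ 0` -/
theorem field_alt {K : Type*} [Field K] (A : List K[X]) (q : K[X]) :
    (∃ m : K[X], m.Monic ∧ 0 < m.natDegree ∧ (∀ a ∈ A, ∃ h, a = m * h) ∧
      ∃ u v : K[X], u * m + v * q = 1) ∨
    (∃ N : ℕ, 0 < N ∧ q ^ N ∈ Ideal.span {a | a ∈ A}) := by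
  classical
  by_cases hrad : q ∈ (Ideal.span {a | a ∈ A}).radical
  · right
    obtain ⟨n, hn⟩ := hrad
    exact ⟨n + 1, Nat.succ_pos _, by rw [pow_succ]; exact Ideal.mul_mem_right _ _ hn⟩
  · left
    rw [Ideal.radical_eq_jacobson, Ideal.jacobson, Ideal.mem_sInf] at hrad
    push Not at hrad
    obtain ⟨M, ⟨hle, hM⟩, hq⟩ := hrad
    obtain ⟨m0, hm0⟩ := (IsPrincipalIdealRing.principal M).principal
    have hm0' : M = Ideal.span {m0} := hm0
    have hne : m0 ≠ 0 := by
      rintro rfl
      rw [Ideal.span_singleton_eq_bot.2 rfl] at hm0'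
      rw [hm0'] at hM
      exact Polynomial.not_isField K (Ring.isField_iff_isSimpleOrder_ideal.2
        (isSimpleOrder_iff_isAtom_top.2 ⟨bot_ne_top.symm, fun b hb => by
          by_contra hb0
          exact hb.ne (hM.1.2 b (bot_lt_iff_ne_bot.2 hb0))⟩))
    have hirr : Irreducible m0 := by
      have hp : M.IsPrime := hM.isPrime
      rw [hm0', Ideal.span_singleton_prime hne] at hp
      exact hp.irreducible
    have hlc : m0.leadingCoeff ≠ 0 := leadingCoeff_ne_zero.2 hne
    refine ⟨m0 * C m0.leadingCoeff⁻¹, monic_mul_leadingCoeff_inv hne, ?_, ?_, ?_⟩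
    · rw [natDegree_mul_C (inv_ne_zero hlc)]
      exact hirr.natDegree_pos
    · intro a ha
      have h1 : a ∈ M := hle (Ideal.subset_span ha)
      rw [hm0', Ideal.mem_span_singleton] at h1
      obtain ⟨h, rfl⟩ := h1
      refine ⟨C m0.leadingCoeff * h, ?_⟩
      rw [mul_assoc, ← mul_assoc (C m0.leadingCoeff⁻¹), ← C_mul, inv_mul_cancel₀ hlc, C_1, one_mul]
    · have h1 : ¬ m0 ∣ q := by
        intro h
        apply hq
        rw [hm0']
        exact Ideal.mem_span_singleton.2 h
      obtain ⟨u, v, huv⟩ := (hirr.coprime_iff_not_dvd.2 h1)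
      refine ⟨u * C m0.leadingCoeff, v, ?_⟩
      rw [← huv]
      have : C m0.leadingCoeff * C m0.leadingCoeff⁻¹ = (1 : K[X]) := by
        rw [← C_mul, mul_inv_cancel₀ hlc, C_1]
      calc u * C m0.leadingCoeff * (m0 * C m0.leadingCoeff⁻¹) + v * q
          = u * m0 * (C m0.leadingCoeff * C m0.leadingCoeff⁻¹) + v * q := by ring
        _ = _ := by rw [this, mul_one]

theorem sum_clear {B : Type*} [CommRing B] (A : List B) (z : B)
    (h : z ∈ Ideal.span {a | a ∈ A}) : ∃ c : List B, c.length = A.length ∧
      z = (List.zipWith (· * ·) c A).sum := by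
  induction A generalizing z with
  | nil =>
    have : z = 0 := by simpa using h
    exact ⟨[], rfl, by simpa using this⟩
  | cons a A ih =>
    have h1 : {b | b ∈ a :: A} = insert a {b | b ∈ A} := by ext; simp
    rw [h1, Ideal.mem_span_insert] at h
    obtain ⟨u, w, hw, rfl⟩ := h
    obtain ⟨c, hc, rfl⟩ := ih w hw
    exact ⟨u :: c, by simp [hc], by simp⟩

/-- one step of the Noetherian induction, for a prime ideal -/
theorem prime_step {R : Type*} [CommRing R] (A : List R[X]) (q : R[X])
    (P : Ideal R) (hP : P.IsPrime) (F : Type*) [Field F] :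
    ∃ s : R, s ∉ P ∧ ((∃ l : List R, l ≠ [] ∧ ∀ φ : R →+* F, (∀ r ∈ P, φ r = 0) → φ s ≠ 0 →
      ∀ x : F, eval x ((mkP s l).map φ) = 0 →
        (∀ a ∈ A, eval x (a.map φ) = 0) ∧ eval x (q.map φ) ≠ 0) ∨
      (∀ φ : R →+* F, (∀ r ∈ P, φ r = 0) → φ s ≠ 0 →
        ∀ x : F, (∀ a ∈ A, eval x (a.map φ) = 0) → eval x (q.map φ) = 0)) := by
  classical
  have _ := hP
  let B := R ⧸ P
  let K := FractionRing B
  let π : R →+* B := Ideal.Quotient.mk P
  have hπ : Function.Surjective π := Ideal.Quotient.mk_surjective
  let ι : B →+* K := algebraMap B K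
  have hι : Function.Injective ι := IsFractionRing.injective B K
  have hmapinj : Function.Injective (Polynomial.map ι) := Polynomial.map_injective ι hι
  have hlift : ∀ φ : R →+* F, (∀ r ∈ P, φ r = 0) → ∃ ψ : B →+* F, ψ.comp π = φ := fun φ h =>
    ⟨Ideal.Quotient.lift P φ h, Ideal.Quotient.lift_comp_mk P φ h⟩
  rcases field_alt (A.map fun a => (a.map π).map ι) ((q.map π).map ι) with
    ⟨m, hmon, hdeg, hA, u, v, huv⟩ | ⟨N, hN, hmem⟩
  · choose! h hh using hA
    obtain ⟨b, hb0, hb⟩ := clear2 (B := B)
      (m :: u :: v :: (A.map fun a => h ((a.map π).map ι)))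
    obtain ⟨m', hm'⟩ := hb m (by simp)
    obtain ⟨u', hu'⟩ := hb u (by simp)
    obtain ⟨v', hv'⟩ := hb v (by simp)
    have hdm : m'.natDegree = m.natDegree := by
      rw [← natDegree_map_eq_of_injective hι, hm', natDegree_C_mul]
      exact fun h0 => hb0 (hι (by rw [h0, map_zero]))
    have hcm : m'.coeff m.natDegree = b := by
      apply hι
      have h1 := congrArg (fun f => coeff f m.natDegree) hm'
      simp only [coeff_map, coeff_C_mul] at h1
      rw [h1, coeff_natDegree, hmon.leadingCoeff, mul_one]
    obtain ⟨l', hl', hl⟩ := exists_mkP m.natDegree m' hdm.le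
    rw [hcm] at hl
    obtain ⟨l, hll⟩ := exists_lift hπ l'
    obtain ⟨s, hs⟩ := hπ b
    refine ⟨s, fun h0 => hb0 ?_, Or.inl ⟨l, ?_, ?_⟩⟩
    · rw [← hs]; exact Ideal.Quotient.eq_zero_iff_mem.2 h0
    · rintro rfl
      rw [List.map_nil] at hll
      rw [← hll] at hl'
      simp at hl'
      omega
    · intro φ hφ hφs x hx
      obtain ⟨ψ, rfl⟩ := hlift φ hφ
      have hs' : ψ b ≠ 0 := by rw [← hs]; exact hφs
      have hm0 : eval x (m'.map ψ) = 0 := by
        rw [← hl, ← hll, ← hs, ← map_mkP, Polynomial.map_map]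
        exact hx
      have e1 : u' * m' + C b * v' * q.map π = C (b * b) := by
        apply hmapinj
        rw [Polynomial.map_add, Polynomial.map_mul, Polynomial.map_mul, Polynomial.map_mul, hm',
          hu', hv', map_C, map_C, map_mul, C_mul]
        have : C (ι b) * u * (C (ι b) * m) + C (ι b) * (C (ι b) * v) * (q.map π).map ι =
          C (ι b) * C (ι b) * (u * m + v * (q.map π).map ι) := by ring
        exact this.trans (by rw [huv, mul_one])
      constructor
      · intro a ha
        obtain ⟨g, hg⟩ := hb (h ((a.map π).map ι)) (by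
          simp only [List.mem_cons, List.mem_map]
          exact Or.inr (Or.inr (Or.inr ⟨a, ha, rfl⟩)))
        have e2 : m' * g = C (b * b) * a.map π := by
          apply hmapinj
          rw [Polynomial.map_mul, hm', hg, Polynomial.map_mul, map_C, map_mul, C_mul]
          have h3 := hh _ (List.mem_map.2 ⟨a, ha, rfl⟩)
          calc C (ι b) * m * (C (ι b) * h ((a.map π).map ι))
              = C (ι b) * C (ι b) * (m * h ((a.map π).map ι)) := by ring
            _ = _ := by rw [← h3]
        have e3 := congrArg (fun f => eval x (f.map ψ)) e2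
        simp only [Polynomial.map_mul, eval_mul, hm0, zero_mul, map_C, eval_C, Polynomial.map_map]
          at e3
        rcases mul_eq_zero.1 e3.symm with h4 | h4
        · rw [map_mul] at h4
          exact absurd (mul_self_eq_zero.1 h4) hs'
        · exact h4
      · have e3 := congrArg (fun f => eval x (f.map ψ)) e1
        simp only [Polynomial.map_mul, Polynomial.map_add, eval_add, eval_mul, hm0, mul_zero,
          zero_add, map_C, eval_C, Polynomial.map_map] at e3
        intro h4
        rw [h4, mul_zero, map_mul] at e3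
        exact hs' (mul_self_eq_zero.1 e3.symm)
  · obtain ⟨c, hc, hsum⟩ := sum_clear _ _ hmem
    obtain ⟨b, hb0, hb⟩ := clear2 (B := B) c
    obtain ⟨s, hs⟩ := hπ b
    refine ⟨s, fun h0 => hb0 ?_, Or.inr ?_⟩
    · rw [← hs]; exact Ideal.Quotient.eq_zero_iff_mem.2 h0
    · intro φ hφ hφs x hx
      obtain ⟨ψ, rfl⟩ := hlift φ hφ
      have hs' : ψ b ≠ 0 := by rw [← hs]; exact hφs
      have key : ∀ (A : List R[X]) (c : List K[X]) (z : B[X]), (∀ f ∈ c, ∃ g : B[X],
          g.map ι = C (ι b) * f) →
          (∀ a ∈ A, eval x (a.map (ψ.comp π)) = 0) →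
          z.map ι = C (ι b) * (List.zipWith (· * ·) c (A.map fun a => (a.map π).map ι)).sum →
          eval x (z.map ψ) = 0 := by
        intro A
        induction A with
        | nil =>
          intro c z _ _ hz
          have : z = 0 := hmapinj (by rw [hz]; simp)
          rw [this]; simp
        | cons a A ih =>
          intro c z hc hA hz
          rcases c with _ | ⟨c0, c⟩
          · have : z = 0 := hmapinj (by rw [hz]; simp)
            rw [this]; simp
          · obtain ⟨g, hg⟩ := hc c0 (by simp)
            have h5 := ih c (z - g * a.map π) (fun f hf => hc f (by simp [hf]))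
              (fun a ha => hA a (by simp [ha])) (by
                rw [Polynomial.map_sub, hz, Polynomial.map_mul, hg, List.map_cons,
                  List.zipWith_cons_cons, List.sum_cons]
                ring)
            rw [Polynomial.map_sub, eval_sub, Polynomial.map_mul, eval_mul, Polynomial.map_map,
              hA a (by simp), mul_zero, sub_zero] at h5
            exact h5
      have h6 := key A c (C b * (q.map π) ^ N) hb hx (by
        rw [Polynomial.map_mul, map_C, Polynomial.map_pow, hsum])
      rw [Polynomial.map_mul, map_C, eval_mul, eval_C, Polynomial.map_pow, eval_pow,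
        Polynomial.map_map] at h6
      rcases mul_eq_zero.1 h6 with h7 | h7
      · exact absurd h7 hs'
      · exact pow_eq_zero_iff (by omega) |>.1 h7

/-- a clause: finitely many polynomials required to vanish, one required not to vanish, and the
lower coefficients of a polynomial in `X` -/
abbrev Cla (R : Type*) := List R × (R × List R)

/-- the point `φ` satisfies the clause -/
def Sat {R F : Type*} [CommRing R] [Field F] (φ : R →+* F) (w : Cla R) : Prop :=
  (∀ g ∈ w.1, φ g = 0) ∧ φ w.2.1 ≠ 0

/-- elimination of one quantifier -/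
theorem elim {R : Type*} [CommRing R] [IsNoetherianRing R] (A : List R[X]) (q : R[X])
    (F : Type*) [Field F] (I : Ideal R) : ∃ W : List (Cla R), (∀ w ∈ W, w.2.2 ≠ []) ∧
      (∀ w ∈ W, ∀ φ : R →+* F, Sat φ w → ∀ x : F, eval x ((mkP w.2.1 w.2.2).map φ) = 0 →
        (∀ a ∈ A, eval x (a.map φ) = 0) ∧ eval x (q.map φ) ≠ 0) ∧
      (∀ φ : R →+* F, (∀ r ∈ I, φ r = 0) → ∀ x : F,
        (∀ a ∈ A, eval x (a.map φ) = 0) → eval x (q.map φ) ≠ 0 → ∃ w ∈ W, Sat φ w) := by
  classical
  induction I using WellFoundedGT.induction with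
  | ind I ih =>
    by_cases htop : I = ⊤
    · refine ⟨[], by simp, by simp, fun φ hφ => ?_⟩
      have h1 := hφ 1 (by rw [htop]; trivial)
      rw [map_one] at h1
      exact absurd h1 one_ne_zero
    by_cases hpr : I.IsPrime
    · obtain ⟨s, hs, hcase⟩ := prime_step A q I hpr F
      obtain ⟨W, hW0, hW1, hW2⟩ := ih (I ⊔ Ideal.span {s}) (by
        refine lt_of_le_of_ne le_sup_left fun h => hs ?_
        rw [h]
        exact Ideal.mem_sup_right (Ideal.mem_span_singleton_self s))
      have hsup : ∀ φ : R →+* F, (∀ r ∈ I, φ r = 0) → φ s = 0 →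
          ∀ r ∈ I ⊔ Ideal.span {s}, φ r = 0 := by
        intro φ h1 h2 r hr
        have : I ⊔ Ideal.span {s} ≤ RingHom.ker φ :=
          sup_le (fun r hr => h1 r hr) ((Ideal.span_singleton_le_iff_mem _).2 h2)
        exact this hr
      rcases hcase with ⟨l, hl, hc⟩ | hc
      · obtain ⟨G, hG⟩ := (isNoetherianRing_iff_ideal_fg R).1 inferInstance I
        refine ⟨(G.toList, (s, l)) :: W, ?_, ?_, ?_⟩
        · intro w hw
          rcases List.mem_cons.1 hw with rfl | hw
          · exact hl
          · exact hW0 w hw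
        · intro w hw φ hφ x hx
          rcases List.mem_cons.1 hw with rfl | hw
          · refine hc φ (fun r hr => ?_) hφ.2 x hx
            have : Ideal.span (G : Set R) ≤ RingHom.ker φ :=
              Ideal.span_le.2 fun g hg => hφ.1 g (by simpa using hg)
            rw [hG] at this
            exact this hr
          · exact hW1 w hw φ hφ x hx
        · intro φ hφ x hx1 hx2
          by_cases h0 : φ s = 0
          · obtain ⟨w, hw, hsat⟩ := hW2 φ (hsup φ hφ h0) x hx1 hx2
            exact ⟨w, by simp [hw], hsat⟩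
          · refine ⟨(G.toList, (s, l)), by simp, fun g hg => hφ g ?_, h0⟩
            rw [← hG]
            exact Ideal.subset_span (by simpa using hg)
      · refine ⟨W, hW0, hW1, fun φ hφ x hx1 hx2 => ?_⟩
        by_cases h0 : φ s = 0
        · exact hW2 φ (hsup φ hφ h0) x hx1 hx2
        · exact absurd (hc φ hφ h0 x hx1) hx2
    · obtain ⟨a, ha, b, hb, hab⟩ : ∃ a, a ∉ I ∧ ∃ b, b ∉ I ∧ a * b ∈ I := by
        by_contra hcon
        push Not at hcon
        refine hpr ⟨htop, fun {x y} hxy => ?_⟩
        by_contra h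
        push Not at h
        exact hcon x h.1 y h.2 hxy
      have hlt : ∀ s : R, s ∉ I → I < I ⊔ Ideal.span {s} := fun s hs => by
        refine lt_of_le_of_ne le_sup_left fun h => hs ?_
        rw [h]
        exact Ideal.mem_sup_right (Ideal.mem_span_singleton_self s)
      have hsup : ∀ (s : R) (φ : R →+* F), (∀ r ∈ I, φ r = 0) → φ s = 0 →
          ∀ r ∈ I ⊔ Ideal.span {s}, φ r = 0 := by
        intro s φ h1 h2 r hr
        have : I ⊔ Ideal.span {s} ≤ RingHom.ker φ :=
          sup_le (fun r hr => h1 r hr) ((Ideal.span_singleton_le_iff_mem _).2 h2)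
        exact this hr
      obtain ⟨W, hW0, hW1, hW2⟩ := ih _ (hlt a ha)
      obtain ⟨W', hW0', hW1', hW2'⟩ := ih _ (hlt b hb)
      refine ⟨W ++ W', ?_, ?_, ?_⟩
      · intro w hw
        rcases List.mem_append.1 hw with hw | hw
        · exact hW0 w hw
        · exact hW0' w hw
      · intro w hw
        rcases List.mem_append.1 hw with hw | hw
        · exact hW1 w hw
        · exact hW1' w hw
      · intro φ hφ x hx1 hx2
        have h1 := hφ _ hab
        rw [map_mul] at h1
        rcases mul_eq_zero.1 h1 with h1 | h1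
        · obtain ⟨w, hw, hsat⟩ := hW2 φ (hsup a φ hφ h1) x hx1 hx2
          exact ⟨w, by simp [hw], hsat⟩
        · obtain ⟨w, hw, hsat⟩ := hW2' φ (hsup b φ hφ h1) x hx1 hx2
          exact ⟨w, by simp [hw], hsat⟩

end Pool.Agent.H79
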