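import Pool.Agent.H79.QE1
import Pool.Graph.R_seed8.Helper967.AD6

set_option autoImplicit false

/-! Elimination of one quantifier: codes, checks and their soundness and completeness. -/

namespace Pool.Agent.H79

open Primrec Pool.Agent.Helper967.AD Pool.Agent.Helper967.FL

/-- the variable `i` does not occur in the polynomial with code `c` -/
def noV (i c : ℕ) : Bool :=
  rec5 (fun (i j : ℕ) => decide (j ≠ i)) true true and and (fun _ => true) i c

theorem noV_var (i j : ℕ) : noV i (varC j) = decide (j ≠ i) := rec5_var ..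
theorem noV_add (i s t : ℕ) : noV i (addC s t) = (noV i s && noV i t) := rec5_add ..
theorem noV_mul (i s t : ℕ) : noV i (mulC s t) = (noV i s && noV i t) := rec5_mul ..
theorem noV_cst (i r : ℕ) : noV i (cstC r) = true :=
  rec5_cst (fun (i j : ℕ) => decide (j ≠ i)) true true and and (fun _ => true) i 0 r

theorem noV_primrec : Primrec₂ noV := by
  refine rec5_primrec ?_ Primrec.and Primrec.and (const _)
  have h : PrimrecRel fun i j : ℕ => j ≠ i := (Primrec.eq.comp snd fst).not
  exact h.decide

theorem noV_aeval {F : Type*} [Field F] [CharZero F] (e : ℕ → F) (i : ℕ) (a : F) (c : ℕ)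
    (h : noV i c = true) :
    MvPolynomial.aeval (Function.update e i a) (pol c) = MvPolynomial.aeval e (pol c) := by
  induction c using ind5 with
  | hv j =>
    have h1 : noV i (Nat.pair 0 j) = decide (j ≠ i) := noV_var i j
    rw [h1] at h
    have h2 : j ≠ i := by simpa using h
    rw [pol_var, MvPolynomial.aeval_X, MvPolynomial.aeval_X, Function.update_of_ne h2]
  | hz j => rw [pol_zero, map_zero, map_zero]
  | ho j => rw [pol_one, map_one, map_one]
  | had s t hs ht =>
    have h1 : noV i (Nat.pair 3 (Nat.pair s t)) = (noV i s && noV i t) := noV_add i s t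
    rw [h1, Bool.and_eq_true] at h
    rw [pol_add, map_add, map_add, hs h.1, ht h.2]
  | hmu s t hs ht =>
    have h1 : noV i (Nat.pair 4 (Nat.pair s t)) = (noV i s && noV i t) := noV_mul i s t
    rw [h1, Bool.and_eq_true] at h
    rw [pol_mul, map_mul, map_mul, hs h.1, ht h.2]
  | hcs k r => rw [pol_cst, MvPolynomial.aeval_C, MvPolynomial.aeval_C]

def eq0C (g : ℕ) : ℕ := Nat.pair 0 (Nat.pair g zeroC)
def notC (p : ℕ) : ℕ := Nat.pair 1 p
def andC (p q : ℕ) : ℕ := Nat.pair 2 (Nat.pair p q)
def orC (p q : ℕ) : ℕ := Nat.pair 3 (Nat.pair p q)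

theorem eq0C_primrec : Primrec eq0C :=
  Primrec₂.natPair.comp (const 0) (Primrec₂.natPair.comp Primrec.id (const _))
theorem notC_primrec : Primrec notC := Primrec₂.natPair.comp (const 1) Primrec.id
theorem andC_primrec : Primrec₂ andC :=
  Primrec₂.natPair.comp (const 2) (Primrec₂.natPair.comp fst snd)
theorem orC_primrec : Primrec₂ orC :=
  Primrec₂.natPair.comp (const 3) (Primrec₂.natPair.comp fst snd)

/-- a clause, given by codes -/
abbrev Cl : Type := List ℕ × (ℕ × List ℕ)

/-- code of the clause -/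
def clC (w : Cl) : ℕ := w.1.foldr (fun g acc => andC (eq0C g) acc) (notC (eq0C w.2.1))

/-- code of the polynomial `s x_i ^ d + ...` -/
def mC (i : ℕ) (w : Cl) : ℕ := w.2.2.foldr (fun c acc => addC c (mulC (varC i) acc)) w.2.1

/-- code of the disjunction of clauses -/
def disC (W : List Cl) : ℕ := W.foldr (fun w acc => orC (clC w) acc) (eq0C oneC)

theorem clC_primrec : Primrec clC := by
  refine Primrec.list_foldr (f := fun w : Cl => w.1) (g := fun w : Cl => notC (eq0C w.2.1))
    (h := fun (_ : Cl) (z : ℕ × ℕ) => andC (eq0C z.1) z.2) fst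
    (notC_primrec.comp (eq0C_primrec.comp (fst.comp snd))) ?_
  exact andC_primrec.comp (eq0C_primrec.comp (fst.comp snd)) (snd.comp snd)

theorem mC_primrec : Primrec₂ mC := by
  have h : Primrec fun q : ℕ × Cl => q.2.2.2.foldr
      (fun c acc => addC c (mulC (varC q.1) acc)) q.2.2.1 := by
    refine Primrec.list_foldr (f := fun q : ℕ × Cl => q.2.2.2) (g := fun q : ℕ × Cl => q.2.2.1)
      (h := fun (q : ℕ × Cl) (z : ℕ × ℕ) => addC z.1 (mulC (varC q.1) z.2))
      (snd.comp (snd.comp snd)) (fst.comp (snd.comp snd)) ?_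
    exact addC_primrec.comp (fst.comp snd)
      (mulC_primrec.comp (varC_primrec.comp (fst.comp fst)) (snd.comp snd))
  exact h

theorem disC_primrec : Primrec disC := by
  refine Primrec.list_foldr (f := fun w : List Cl => w) (g := fun _ => eq0C oneC)
    (h := fun (_ : List Cl) (z : Cl × ℕ) => orC (clC z.1) z.2) Primrec.id (const _) ?_
  exact orC_primrec.comp (clC_primrec.comp (fst.comp snd)) (snd.comp snd)

/-- certificates of truth of universal sentences -/
abbrev Cert : Type := List (ℕ × List ℕ)

/-- check of one clause -/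
def okCl (i Q : ℕ) (x : Cl × Cert) : Prop :=
  (∀ g ∈ x.1.1, noV i g = true) ∧ noV i x.1.2.1 = true ∧ (∀ c ∈ x.1.2.2, noV i c = true) ∧
    1 ≤ x.1.2.2.length ∧ chkT (orC (notC (andC (clC x.1) (eq0C (mC i x.1)))) Q) x.2

/-- witness of an elimination step -/
abbrev Wit : Type := List (Cl × Cert) × Cert

/-- the formula obtained by the elimination -/
def outC (w : Wit) : ℕ := disC (w.1.map Prod.fst)

/-- check that `outC w` is equivalent to `∃ x_i Q` -/
def elimOK (i Q : ℕ) (w : Wit) : Prop :=
  (∀ x ∈ w.1, okCl i Q x) ∧ chkT (orC (notC Q) (outC w)) w.2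

theorem outC_primrec : Primrec outC :=
  disC_primrec.comp (Primrec.list_map fst (fst.comp snd))

theorem all_noV : PrimrecRel fun (l : List ℕ) (i : ℕ) => ∀ g ∈ l, noV i g = true := by
  have h : PrimrecRel fun (g : ℕ) (i : ℕ) => noV i g = true :=
    Primrec.eq.comp (noV_primrec.comp snd fst) (const true)
  exact h.forall_mem_list

theorem elimOK_primrec : PrimrecPred fun q : ℕ × (ℕ × Wit) => elimOK q.1 q.2.1 q.2.2 := by
  have h1 : PrimrecRel fun (x : Cl × Cert) (q : ℕ × ℕ) => okCl q.1 q.2 x := by
    have hx : Primrec fun w : (Cl × Cert) × (ℕ × ℕ) => w.1 := fst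
    have hi : Primrec fun w : (Cl × Cert) × (ℕ × ℕ) => w.2.1 := fst.comp snd
    have hQ : Primrec fun w : (Cl × Cert) × (ℕ × ℕ) => w.2.2 := snd.comp snd
    have hc : Primrec fun w : (Cl × Cert) × (ℕ × ℕ) => w.1.1 := fst.comp fst
    refine PrimrecPred.and (all_noV.comp (fst.comp hc) hi) (PrimrecPred.and
      (Primrec.eq.comp (noV_primrec.comp hi (fst.comp (snd.comp hc))) (const true))
      (PrimrecPred.and (all_noV.comp (snd.comp (snd.comp hc)) hi) (PrimrecPred.and
        (Primrec.nat_le.comp (const 1) (Primrec.list_length.comp (snd.comp (snd.comp hc)))) ?_)))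
    exact chkT_primrec.comp (orC_primrec.comp (notC_primrec.comp (andC_primrec.comp
      (clC_primrec.comp hc) (eq0C_primrec.comp (mC_primrec.comp hi hc)))) hQ) (snd.comp hx)
  have h2 := h1.forall_mem_list
  have hw : Primrec fun q : ℕ × (ℕ × Wit) => q.2.2 := snd.comp snd
  have hQ : Primrec fun q : ℕ × (ℕ × Wit) => q.2.1 := fst.comp snd
  refine PrimrecPred.and (h2.comp (fst.comp hw) (Primrec.pair fst hQ)) ?_
  exact chkT_primrec.comp (orC_primrec.comp (notC_primrec.comp hQ) (outC_primrec.comp hw))
    (snd.comp hw)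

end Pool.Agent.H79
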