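import Pool.Agent.H79.QE2

set_option autoImplicit false

/-! Soundness and completeness of the elimination step. -/

namespace Pool.Agent.H79

open MvPolynomial Pool.Agent.Helper967.AD Pool.Agent.Helper967.FL

section sem

variable {F : Type*} [Field F] [CharZero F]

/-- truth of the quantifier-free formula with code `n` -/
def Tr (e : ℕ → F) (n : ℕ) : Prop := bevG TF e n = true

theorem tr_not (e : ℕ → F) (p : ℕ) : Tr e (notC p) ↔ ¬ Tr e p := by
  rw [Tr, notC, bevG_not, Tr]; simp

theorem tr_and (e : ℕ → F) (p q : ℕ) : Tr e (andC p q) ↔ Tr e p ∧ Tr e q := by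
  rw [Tr, andC, bevG_and, Tr, Tr]; simp

theorem tr_or (e : ℕ → F) (p q : ℕ) : Tr e (orC p q) ↔ Tr e p ∨ Tr e q := by
  have h0 := bevG_or (α := ℕ → F) TF e 0 p q
  rw [zero_add] at h0
  rw [Tr, orC, h0, Tr, Tr]; simp

theorem tr_or' (e : ℕ → F) (k p q : ℕ) :
    Tr e (Nat.pair (k + 3) (Nat.pair p q)) ↔ Tr e p ∨ Tr e q := by
  rw [Tr, bevG_or, Tr, Tr]; simp

theorem tr_eq0 (e : ℕ → F) (g : ℕ) : Tr e (eq0C g) ↔ aeval e (pol g) = 0 := by
  rw [Tr, eq0C, bevG_atom, TF_iff, P, Nat.unpair_pair]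
  simp only [pol_zeroC, sub_zero]

theorem tr_cl (e : ℕ → F) (w : Cl) :
    Tr e (clC w) ↔ (∀ g ∈ w.1, aeval e (pol g) = 0) ∧ aeval e (pol w.2.1) ≠ 0 := by
  obtain ⟨G, s, l⟩ := w
  induction G with
  | nil =>
    rw [clC, List.foldr_nil, tr_not, tr_eq0]
    simp
  | cons g G ih =>
    have h : clC (g :: G, s, l) = andC (eq0C g) (clC (G, s, l)) := rfl
    rw [h, tr_and, tr_eq0, ih]
    simp [and_assoc]

theorem tr_dis (e : ℕ → F) (W : List Cl) : Tr e (disC W) ↔ ∃ w ∈ W, Tr e (clC w) := by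
  induction W with
  | nil =>
    rw [disC, List.foldr_nil, tr_eq0, pol_oneC, map_one]
    simp
  | cons w W ih =>
    have h : disC (w :: W) = orC (clC w) (disC W) := rfl
    rw [h, tr_or, ih]
    simp

theorem aeval_mC (e : ℕ → F) (i : ℕ) (w : Cl) : aeval e (pol (mC i w)) =
    Polynomial.eval (e i) (mkP (aeval e (pol w.2.1)) (w.2.2.map fun c => aeval e (pol c))) := by
  obtain ⟨G, s, l⟩ := w
  induction l with
  | nil =>
    change aeval e (pol s) = Polynomial.eval (e i) (Polynomial.C (aeval e (pol s)))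
    rw [Polynomial.eval_C]
  | cons c l ih =>
    have h : mC i (G, s, c :: l) = addC c (mulC (varC i) (mC i (G, s, l))) := rfl
    have h2 : mkP (aeval e (pol s)) ((c :: l).map fun c => aeval e (pol c)) =
      Polynomial.C (aeval e (pol c)) + Polynomial.X *
        mkP (aeval e (pol s)) (l.map fun c => aeval e (pol c)) := rfl
    rw [h, pol_addC, pol_mulC, pol_varC, map_add, map_mul, aeval_X, ih]
    simp only
    rw [h2, Polynomial.eval_add, Polynomial.eval_mul, Polynomial.eval_C, Polynomial.eval_X]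

theorem mkP_natDegree {R : Type*} [CommRing R] (s : R) (hs : s ≠ 0) (l : List R) :
    (mkP s l).natDegree = l.length ∧ mkP s l ≠ 0 := by
  have : Nontrivial R := ⟨⟨s, 0, hs⟩⟩
  induction l with
  | nil => simpa [mkP] using hs
  | cons c l ih =>
    obtain ⟨h1, h2⟩ := ih
    have h3 : mkP s (c :: l) = Polynomial.C c + Polynomial.X * mkP s l := rfl
    have h4 : (Polynomial.X * mkP s l).natDegree = l.length + 1 := by
      rw [Polynomial.natDegree_X_mul h2, h1]
    have h5 : (mkP s (c :: l)).natDegree = l.length + 1 := by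
      rw [h3, Polynomial.natDegree_C_add, h4]
    refine ⟨by rw [h5]; rfl, fun h0 => ?_⟩
    rw [h0] at h5
    simp at h5

/-- soundness -/
theorem elim_sound [IsAlgClosed F] {i Q : ℕ} {w : Wit} (h : elimOK i Q w) (e : ℕ → F) :
    Tr e (outC w) ↔ ∃ a : F, Tr (Function.update e i a) Q := by
  obtain ⟨hw, h0⟩ := h
  have hcl : ∀ x ∈ w.1, ∀ a : F, Tr (Function.update e i a) (clC x.1) ↔ Tr e (clC x.1) := by
    intro x hx a
    obtain ⟨h1, h2, -, -, -⟩ := hw x hx
    rw [tr_cl, tr_cl, noV_aeval e i a _ h2]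
    refine and_congr (forall₂_congr fun g hg => ?_) Iff.rfl
    rw [noV_aeval e i a _ (h1 g hg)]
  constructor
  · intro h
    rw [outC, tr_dis] at h
    obtain ⟨c, hc, hcs⟩ := h
    obtain ⟨x, hx, rfl⟩ := List.mem_map.1 hc
    obtain ⟨h1, h2, h3, h4, h5⟩ := hw x hx
    have hs : aeval e (pol x.1.2.1) ≠ 0 := ((tr_cl e x.1).1 hcs).2
    obtain ⟨hd, hne⟩ := mkP_natDegree _ hs (x.1.2.2.map fun c => aeval e (pol c))
    rw [List.length_map] at hd
    obtain ⟨a, ha⟩ := IsAlgClosed.exists_root (mkP (aeval e (pol x.1.2.1))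
      (x.1.2.2.map fun c => aeval e (pol c))) (by
        rw [Polynomial.degree_eq_natDegree hne, hd]
        exact_mod_cast (by omega : x.1.2.2.length ≠ 0))
    refine ⟨a, ?_⟩
    have h6 : Tr (Function.update e i a) _ := soundT h5 (Function.update e i a)
    rw [tr_or, tr_not, tr_and, hcl x hx a, tr_eq0, aeval_mC, Function.update_self,
      noV_aeval e i a _ h2] at h6
    have h7 : (x.1.2.2.map fun c => aeval (Function.update e i a) (pol c)) =
        x.1.2.2.map fun c => aeval e (pol c) := by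
      apply List.map_congr_left
      intro c hc
      exact noV_aeval e i a _ (h3 c hc)
    rw [h7] at h6
    rcases h6 with h6 | h6
    · exact absurd ⟨hcs, ha⟩ h6
    · exact h6
  · rintro ⟨a, ha⟩
    have h6 : Tr (Function.update e i a) _ := soundT h0 (Function.update e i a)
    rw [tr_or, tr_not, outC, tr_dis] at h6
    rcases h6 with h6 | ⟨c, hc, hcs⟩
    · exact absurd ha h6
    · obtain ⟨x, hx, rfl⟩ := List.mem_map.1 hc
      rw [outC, tr_dis]
      exact ⟨x.1, hc, (hcl x hx a).1 hcs⟩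

variable (F) in
/-- a true universal sentence has a certificate -/
theorem cert_of_true [IsAlgClosed F] {n : ℕ} (h : ∀ e : ℕ → F, Tr e n) : ∃ K, chkT n K := by
  rcases complete n with h1 | ⟨K, hK⟩
  · exact h1
  · exfalso
    obtain ⟨e, he⟩ := soundF (F := F) hK
    have := h e
    rw [Tr, he] at this
    exact Bool.noConfusion this

theorem exists_code (i N : ℕ) (r : MvPolynomial {j : ℕ // j ≠ i ∧ j ≤ N} ℚ) :
    ∃ c, noV i c = true ∧ pol c = rename Subtype.val r := by
  induction r using MvPolynomial.induction_on with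
  | C a =>
    obtain ⟨k, hk⟩ := rat_surj a
    exact ⟨cstC k, noV_cst i k, by rw [pol_cstC, hk, rename_C]⟩
  | add p q hp hq =>
    obtain ⟨s, hs, hs'⟩ := hp
    obtain ⟨t, ht, ht'⟩ := hq
    exact ⟨addC s t, by rw [noV_add, hs, ht]; rfl, by rw [pol_addC, hs', ht', map_add]⟩
  | mul_X p j hp =>
    obtain ⟨s, hs, hs'⟩ := hp
    refine ⟨mulC s (varC j), ?_, by rw [pol_mulC, hs', pol_varC, map_mul, rename_X]⟩
    rw [noV_mul, hs, noV_var]
    simp [j.2.1]

open Classical in
/-- the polynomials of the atoms as polynomials in the variable `x_i` -/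
noncomputable def rho (i N : ℕ) :
    MvPolynomial ℕ ℚ →ₐ[ℚ] Polynomial (MvPolynomial {j : ℕ // j ≠ i ∧ j ≤ N} ℚ) :=
  aeval fun j => if j = i then Polynomial.X else
    if h : j ≠ i ∧ j ≤ N then Polynomial.C (X ⟨j, h⟩) else 0

/-- the point with coordinates `e` -/
noncomputable def phi (i N : ℕ) (e : ℕ → F) :
    MvPolynomial {j : ℕ // j ≠ i ∧ j ≤ N} ℚ →+* F :=
  (aeval fun j : {j : ℕ // j ≠ i ∧ j ≤ N} => e j).toRingHom

theorem phi_code (i N : ℕ) (e : ℕ → F) (r : MvPolynomial {j : ℕ // j ≠ i ∧ j ≤ N} ℚ) (c : ℕ)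
    (h : pol c = rename Subtype.val r) : aeval e (pol c) = phi i N e r := by
  rw [h, aeval_rename]
  rfl

theorem eval_rho (i N : ℕ) (e : ℕ → F) (c : ℕ) (hc : c ≤ N) :
    Polynomial.eval (e i) ((rho i N (P c)).map (phi i N e)) = aeval e (P c) := by
  let f1 : MvPolynomial ℕ ℚ →+* F := (Polynomial.evalRingHom (e i)).comp
    ((Polynomial.mapRingHom (phi i N e)).comp (rho i N).toRingHom)
  let f2 : MvPolynomial ℕ ℚ →+* F := (aeval e : MvPolynomial ℕ ℚ →ₐ[ℚ] F).toRingHom
  have h : f1 (P c) = f2 (P c) := by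
    refine hom_congr_vars ?_ (fun j hj _ => ?_) rfl
    · exact RingHom.ext_rat _ _
    · have hjN : j ≤ N := (P_vars c j hj).trans hc
      change Polynomial.eval (e i) ((rho i N (X j)).map (phi i N e)) = aeval e (X j)
      rw [aeval_X, rho, aeval_X]
      by_cases hji : j = i
      · rw [if_pos hji, Polynomial.map_X, Polynomial.eval_X, hji]
      · rw [if_neg hji, dif_pos ⟨hji, hjN⟩, Polynomial.map_C, Polynomial.eval_C]
        change aeval (fun j : {j : ℕ // j ≠ i ∧ j ≤ N} => e j) (X ⟨j, ⟨hji, hjN⟩⟩) = e j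
        rw [aeval_X]
  exact h

variable (F) in
/-- completeness -/
theorem elim_complete [IsAlgClosed F] (i Q : ℕ) : ∃ w, elimOK i Q w := by
  classical
  let R := MvPolynomial {j : ℕ // j ≠ i ∧ j ≤ Q} ℚ
  have hfin : Finite {j : ℕ // j ≠ i ∧ j ≤ Q} :=
    ((Set.finite_Iic Q).subset fun j (hj : j ≠ i ∧ j ≤ Q) => hj.2).to_subtype
  have hnoeth : IsNoetherianRing R := inferInstance
  choose code hcode1 hcode2 using exists_code i Q
  -- elimination for one pattern
  let A : ℕ → List (Polynomial R) := fun τ =>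
    ((List.range (Q + 1)).filter fun c => tb τ c = true).map fun c => rho i Q (P c)
  let q : ℕ → Polynomial R := fun τ =>
    ∏ c ∈ (Finset.range (Q + 1)).filter fun c => tb τ c = false, rho i Q (P c)
  have hel := fun τ => elim (A τ) (q τ) F (⊥ : Ideal R)
  choose W hW0 hW1 hW2 using hel
  let toC : Cla R → Cl := fun w => (w.1.map code, (code w.2.1, w.2.2.map code))
  have hsat : ∀ (e : ℕ → F) (w : Cla R), Tr e (clC (toC w)) ↔ Sat (phi i Q e) w := by
    intro e w
    rw [tr_cl]
    simp only [toC, List.mem_map, forall_exists_index, and_imp, forall_apply_eq_imp_iff₂, Sat]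
    rw [phi_code i Q e _ _ (hcode2 _)]
    refine and_congr (forall₂_congr fun g _ => ?_) Iff.rfl
    rw [phi_code i Q e _ _ (hcode2 _)]
  have hroot : ∀ (e : ℕ → F) (w : Cla R), aeval e (pol (mC i (toC w))) =
      Polynomial.eval (e i) ((mkP w.2.1 w.2.2).map (phi i Q e)) := by
    intro e w
    rw [aeval_mC, map_mkP]
    simp only [toC, List.map_map]
    rw [phi_code i Q e _ _ (hcode2 _)]
    congr 2
    apply List.map_congr_left
    intro c _
    exact phi_code i Q e _ _ (hcode2 _)
  have hpatt : ∀ (e : ℕ → F) (τ : ℕ), ((∀ a ∈ A τ, Polynomial.eval (e i) (a.map (phi i Q e)) = 0) ∧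
      Polynomial.eval (e i) ((q τ).map (phi i Q e)) ≠ 0) ↔ ∀ c ≤ Q, TF e c = tb τ c := by
    intro e τ
    have hq : Polynomial.eval (e i) ((q τ).map (phi i Q e)) =
        ∏ c ∈ (Finset.range (Q + 1)).filter fun c => tb τ c = false, aeval e (P c) := by
      rw [Polynomial.map_prod, Polynomial.eval_prod]
      refine Finset.prod_congr rfl fun c hc => ?_
      exact eval_rho i Q e c (by
        have := (Finset.mem_filter.1 hc).1
        simpa [Nat.lt_succ_iff] using this)
    rw [hq, Finset.prod_ne_zero_iff]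
    constructor
    · rintro ⟨h1, h2⟩ c hc
      rcases Bool.eq_false_or_eq_true (tb τ c) with ht | ht
      · rw [ht, TF_iff]
        have := h1 (rho i Q (P c)) (by
          simp only [A, List.mem_map, List.mem_filter, List.mem_range, decide_eq_true_eq]
          exact ⟨c, ⟨by omega, ht⟩, rfl⟩)
        rwa [eval_rho i Q e c hc] at this
      · rw [ht, ← Bool.not_eq_true, TF_iff]
        exact h2 c (by
          simp only [Finset.mem_filter, Finset.mem_range]
          exact ⟨by omega, ht⟩)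
    · intro h
      refine ⟨fun a ha => ?_, fun c hc => ?_⟩
      · simp only [A, List.mem_map, List.mem_filter, List.mem_range, decide_eq_true_eq] at ha
        obtain ⟨c, ⟨hc, ht⟩, rfl⟩ := ha
        rw [eval_rho i Q e c (by omega), ← TF_iff, h c (by omega), ht]
      · simp only [Finset.mem_filter, Finset.mem_range] at hc
        have h1 := h c (by omega)
        rw [hc.2, ← Bool.not_eq_true, TF_iff] at h1
        exact h1
  let L : List Cl := ((List.range (2 ^ (Q + 1))).filter fun τ => bev τ Q = true).flatMap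
    fun τ => (W τ).map toC
  have hL : ∀ c : Cl, c ∈ L ↔ ∃ τ < 2 ^ (Q + 1), bev τ Q = true ∧ ∃ w ∈ W τ, toC w = c := by
    intro c
    simp only [L, List.mem_flatMap, List.mem_filter, List.mem_range, decide_eq_true_eq,
      List.mem_map]
    constructor
    · rintro ⟨τ, ⟨h1, h2⟩, h3⟩; exact ⟨τ, h1, h2, h3⟩
    · rintro ⟨τ, h1, h2, h3⟩; exact ⟨τ, ⟨h1, h2⟩, h3⟩
  have hc1 : ∀ c ∈ L, ∃ K, chkT (orC (notC (andC (clC c) (eq0C (mC i c)))) Q) K := by
    intro c hc
    obtain ⟨τ, hτ, hb, w, hw, rfl⟩ := (hL c).1 hc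
    apply cert_of_true F
    intro e
    rw [tr_or, tr_not, tr_and, tr_eq0, hsat, hroot]
    by_cases hh : Sat (phi i Q e) w ∧
        Polynomial.eval (e i) ((mkP w.2.1 w.2.2).map (phi i Q e)) = 0
    · right
      have h1 := (hpatt e τ).1 (hW1 τ w hw (phi i Q e) hh.1 (e i) hh.2)
      have h2 : bevG TF e Q = bevG tb τ Q := bevG_congr _ _ _ _ _ h1
      rw [Tr, h2]
      exact hb
    · exact Or.inl hh
  choose! K hK using hc1
  have hc2 : ∃ K, chkT (orC (notC Q) (disC L)) K := by
    apply cert_of_true F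
    intro e
    rw [tr_or, tr_not, tr_dis]
    by_cases hQ : Tr e Q
    · right
      obtain ⟨τ, hτ, hc⟩ := exists_tb (TF e) (Q + 1)
      have hc' : ∀ c ≤ Q, TF e c = tb τ c := fun c hcQ => (hc c (by omega)).symm
      have hb : bev τ Q = true := by
        have h2 : bevG TF e Q = bevG tb τ Q := bevG_congr _ _ _ _ _ hc'
        rw [bev, ← h2]
        exact hQ
      obtain ⟨h1, h2⟩ := (hpatt e τ).2 hc'
      obtain ⟨w, hw, hs⟩ := hW2 τ (phi i Q e) (fun r hr => by
        rw [Ideal.mem_bot.1 hr, map_zero]) (e i) h1 h2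
      exact ⟨toC w, (hL _).2 ⟨τ, hτ, hb, w, hw, rfl⟩, (hsat e w).2 hs⟩
    · exact Or.inl hQ
  obtain ⟨K0, hK0⟩ := hc2
  refine ⟨(L.map fun c => (c, K c), K0), ?_, ?_⟩
  · intro x hx
    simp only [List.mem_map] at hx
    obtain ⟨c, hc, rfl⟩ := hx
    refine ⟨?_, ?_, ?_, ?_, hK c hc⟩
    all_goals obtain ⟨τ, hτ, hb, w, hw, rfl⟩ := (hL c).1 hc
    · intro g hg
      simp only [toC, List.mem_map] at hg
      obtain ⟨r, _, rfl⟩ := hg
      exact hcode1 r
    · exact hcode1 _
    · intro g hg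
      simp only [toC, List.mem_map] at hg
      obtain ⟨r, _, rfl⟩ := hg
      exact hcode1 r
    · have := hW0 τ w hw
      simp only [toC, List.length_map]
      exact List.length_pos_iff.2 this
  · have : outC (L.map fun c => (c, K c), K0) = disC L := by
      rw [outC, List.map_map]
      congr 1
      exact List.map_id L
    rw [this]
    exact hK0

end sem

end Pool.Agent.H79
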