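import Pool.Agent.H79.QE3
import Pool.Agent.H79.FODefs

set_option autoImplicit false

/-! The elementary theory of every algebraically closed field of characteristic zero is
decidable. -/

namespace Pool.Agent.H79

open Primrec Pool.Agent.Helper967.AD Pool.Agent.Helper967.FL

/-- entries of derivations: the code of a formula, the code of an equivalent quantifier-free
formula, and a witness of an elimination step -/
abbrev Ent : Type := ℕ × (ℕ × Wit)

def two (k : ℕ → ℕ → ℕ) (D : List Ent) (x : Ent) : Prop :=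
  ∃ y ∈ D, y.1 = x.1.unpair.2.unpair.1 ∧ ∃ z ∈ D, z.1 = x.1.unpair.2.unpair.2 ∧
    x.2.1 = k y.2.1 z.2.1

/-- an entry is justified by the entries of the list `D` -/
def good (D : List Ent) (x : Ent) : Prop :=
  (x.1.unpair.1 = 0 ∧ x.2.1 = x.1) ∨
  (x.1.unpair.1 = 1 ∧ ∃ y ∈ D, y.1 = x.1.unpair.2 ∧ x.2.1 = notC y.2.1) ∨
  (x.1.unpair.1 = 2 ∧ two andC D x) ∨
  (x.1.unpair.1 = 3 ∧ two orC D x) ∨
  (4 ≤ x.1.unpair.1 ∧ ∃ y ∈ D, y.1 = x.1.unpair.2.unpair.2 ∧
    elimOK x.1.unpair.2.unpair.1 (notC y.2.1) x.2.2 ∧ x.2.1 = notC (outC x.2.2))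

def valid (D : List Ent) : Prop := ∀ x ∈ D, good D x

theorem two_primrec {k : ℕ → ℕ → ℕ} (hk : Primrec₂ k) : PrimrecRel (two k) := by
  have h1 : PrimrecRel fun (z : Ent) (w : Ent × Ent) => z.1 = w.2.1.unpair.2.unpair.2 ∧
      w.2.2.1 = k w.1.2.1 z.2.1 := by
    have hz : Primrec fun q : Ent × (Ent × Ent) => q.1 := fst
    have hy : Primrec fun q : Ent × (Ent × Ent) => q.2.1 := fst.comp snd
    have hx : Primrec fun q : Ent × (Ent × Ent) => q.2.2 := snd.comp snd
    refine PrimrecPred.and (Primrec.eq.comp (fst.comp hz)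
      (snd.comp (unpair.comp (snd.comp (unpair.comp (fst.comp hx)))))) ?_
    exact Primrec.eq.comp (fst.comp (snd.comp hx))
      (hk.comp (fst.comp (snd.comp hy)) (fst.comp (snd.comp hz)))
  have h2 := h1.exists_mem_list
  have h3 : PrimrecRel fun (y : Ent) (w : List Ent × Ent) => y.1 = w.2.1.unpair.2.unpair.1 ∧
      ∃ z ∈ w.1, z.1 = w.2.1.unpair.2.unpair.2 ∧ w.2.2.1 = k y.2.1 z.2.1 := by
    have hy : Primrec fun q : Ent × (List Ent × Ent) => q.1 := fst
    have hD : Primrec fun q : Ent × (List Ent × Ent) => q.2.1 := fst.comp snd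
    have hx : Primrec fun q : Ent × (List Ent × Ent) => q.2.2 := snd.comp snd
    refine PrimrecPred.and (Primrec.eq.comp (fst.comp hy)
      (fst.comp (unpair.comp (snd.comp (unpair.comp (fst.comp hx)))))) ?_
    exact h2.comp hD (Primrec.pair hy hx)
  have h4 := h3.exists_mem_list
  exact h4.comp fst Primrec.id

theorem good_primrec : PrimrecRel good := by
  have hx : Primrec fun q : List Ent × Ent => q.2 := snd
  have hD : Primrec fun q : List Ent × Ent => q.1 := fst
  have ht : Primrec fun q : List Ent × Ent => q.2.1.unpair.1 := fst.comp (unpair.comp (fst.comp hx))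
  have e : ∀ k : ℕ, PrimrecPred fun q : List Ent × Ent => q.2.1.unpair.1 = k := fun k =>
    Primrec.eq.comp ht (const k)
  refine PrimrecPred.or (PrimrecPred.and (e 0) (Primrec.eq.comp (fst.comp (snd.comp hx))
    (fst.comp hx))) ?_
  refine PrimrecPred.or (PrimrecPred.and (e 1) ?_) ?_
  · have h1 : PrimrecRel fun (y : Ent) (x : Ent) => y.1 = x.1.unpair.2 ∧ x.2.1 = notC y.2.1 := by
      refine PrimrecPred.and (Primrec.eq.comp (fst.comp fst)
        (snd.comp (unpair.comp (fst.comp snd)))) ?_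
      exact Primrec.eq.comp (fst.comp (snd.comp snd)) (notC_primrec.comp (fst.comp (snd.comp fst)))
    exact h1.exists_mem_list.comp hD hx
  refine PrimrecPred.or (PrimrecPred.and (e 2) (two_primrec andC_primrec)) ?_
  refine PrimrecPred.or (PrimrecPred.and (e 3) (two_primrec orC_primrec)) ?_
  refine PrimrecPred.and (Primrec.nat_le.comp (const 4) ht) ?_
  have h1 : PrimrecRel fun (y : Ent) (x : Ent) => y.1 = x.1.unpair.2.unpair.2 ∧
      elimOK x.1.unpair.2.unpair.1 (notC y.2.1) x.2.2 ∧ x.2.1 = notC (outC x.2.2) := by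
    have hy : Primrec fun q : Ent × Ent => q.1 := fst
    have hx : Primrec fun q : Ent × Ent => q.2 := snd
    have hu : Primrec fun q : Ent × Ent => q.2.1.unpair.2.unpair :=
      unpair.comp (snd.comp (unpair.comp (fst.comp hx)))
    refine PrimrecPred.and (Primrec.eq.comp (fst.comp hy) (snd.comp hu)) (PrimrecPred.and ?_ ?_)
    · exact elimOK_primrec.comp (Primrec.pair (fst.comp hu)
        (Primrec.pair (notC_primrec.comp (fst.comp (snd.comp hy))) (snd.comp (snd.comp hx))))
    · exact Primrec.eq.comp (fst.comp (snd.comp hx))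
        (notC_primrec.comp (outC_primrec.comp (snd.comp (snd.comp hx))))
  exact h1.exists_mem_list.comp hD hx

theorem valid_primrec : PrimrecPred valid := by
  have h1 : PrimrecRel fun (x : Ent) (D : List Ent) => good D x := good_primrec.comp snd fst
  exact h1.forall_mem_list.comp Primrec.id Primrec.id

theorem two_mono {k : ℕ → ℕ → ℕ} {D D' : List Ent} (h : ∀ x ∈ D, x ∈ D') {x : Ent}
    (hx : two k D x) : two k D' x := by
  obtain ⟨y, hy, h1, z, hz, h2, h3⟩ := hx
  exact ⟨y, h y hy, h1, z, h z hz, h2, h3⟩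

theorem good_mono {D D' : List Ent} (h : ∀ x ∈ D, x ∈ D') {x : Ent} (hx : good D x) :
    good D' x := by
  rcases hx with h1 | ⟨h1, y, hy, h2⟩ | ⟨h1, h2⟩ | ⟨h1, h2⟩ | ⟨h1, y, hy, h2⟩
  · exact Or.inl h1
  · exact Or.inr (Or.inl ⟨h1, y, h y hy, h2⟩)
  · exact Or.inr (Or.inr (Or.inl ⟨h1, two_mono h h2⟩))
  · exact Or.inr (Or.inr (Or.inr (Or.inl ⟨h1, two_mono h h2⟩)))
  · exact Or.inr (Or.inr (Or.inr (Or.inr ⟨h1, y, h y hy, h2⟩)))

theorem valid_cons {D : List Ent} (hD : valid D) {x : Ent} (hx : good D x) : valid (x :: D) := by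
  intro y hy
  rcases List.mem_cons.1 hy with rfl | hy
  · exact good_mono (fun z hz => List.mem_cons_of_mem _ hz) hx
  · exact good_mono (fun z hz => List.mem_cons_of_mem _ hz) (hD y hy)

theorem valid_append {D D' : List Ent} (hD : valid D) (hD' : valid D') : valid (D ++ D') := by
  intro y hy
  rcases List.mem_append.1 hy with hy | hy
  · exact good_mono (fun z hz => List.mem_append_left _ hz) (hD y hy)
  · exact good_mono (fun z hz => List.mem_append_right _ hz) (hD' y hy)

section sem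

variable {F : Type*} [Field F] [CharZero F] [IsAlgClosed F]

omit [Field F] [CharZero F] [IsAlgClosed F] in
theorem exists_deriv (F : Type*) [Field F] [CharZero F] [IsAlgClosed F] (n : ℕ) : ∃ D, valid D ∧ ∃ Q w, ((n, (Q, w)) : Ent) ∈ D := by
  induction n using Nat.strong_induction_on with
  | _ n ih =>
    obtain ⟨t, r, rfl⟩ : ∃ t r, n = Nat.pair t r :=
      ⟨n.unpair.1, n.unpair.2, (Nat.pair_unpair n).symm⟩
    rcases t with _ | _ | _ | _ | t
    · exact ⟨[(Nat.pair 0 r, (Nat.pair 0 r, ([], [])))], valid_cons (D := []) (by simp [valid])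
        (Or.inl ⟨by simp, rfl⟩), _, _, List.mem_cons_self⟩
    · obtain ⟨D, hD, Q, w, hm⟩ := ih r (lt_pair (by norm_num))
      refine ⟨(Nat.pair 1 r, (notC Q, ([], []))) :: D, valid_cons hD
        (Or.inr (Or.inl ⟨by simp, _, hm, by simp, rfl⟩)), _, _, List.mem_cons_self⟩
    · obtain ⟨a, b, rfl⟩ : ∃ a b, r = Nat.pair a b :=
        ⟨r.unpair.1, r.unpair.2, (Nat.pair_unpair r).symm⟩
      obtain ⟨D, hD, Q, w, hm⟩ := ih a (lt_pair_left (by norm_num))
      obtain ⟨D', hD', Q', w', hm'⟩ := ih b (lt_pair_right (by norm_num))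
      refine ⟨(Nat.pair 2 (Nat.pair a b), (andC Q Q', ([], []))) :: (D ++ D'),
        valid_cons (valid_append hD hD') (Or.inr (Or.inr (Or.inl ⟨by simp, _,
          List.mem_append_left _ hm, by simp, _, List.mem_append_right _ hm', by simp, rfl⟩))),
        _, _, List.mem_cons_self⟩
    · obtain ⟨a, b, rfl⟩ : ∃ a b, r = Nat.pair a b :=
        ⟨r.unpair.1, r.unpair.2, (Nat.pair_unpair r).symm⟩
      obtain ⟨D, hD, Q, w, hm⟩ := ih a (lt_pair_left (by norm_num))
      obtain ⟨D', hD', Q', w', hm'⟩ := ih b (lt_pair_right (by norm_num))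
      refine ⟨(Nat.pair 3 (Nat.pair a b), (orC Q Q', ([], []))) :: (D ++ D'),
        valid_cons (valid_append hD hD') (Or.inr (Or.inr (Or.inr (Or.inl ⟨by simp, _,
          List.mem_append_left _ hm, by simp, _, List.mem_append_right _ hm', by simp, rfl⟩)))),
        _, _, List.mem_cons_self⟩
    · obtain ⟨a, b, rfl⟩ : ∃ a b, r = Nat.pair a b :=
        ⟨r.unpair.1, r.unpair.2, (Nat.pair_unpair r).symm⟩
      obtain ⟨D, hD, Q, w, hm⟩ := ih b (lt_pair_right (by omega))
      obtain ⟨w', hw'⟩ := elim_complete F a (notC Q)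
      refine ⟨(Nat.pair (t + 4) (Nat.pair a b), (notC (outC w'), w')) :: D, valid_cons hD
        (Or.inr (Or.inr (Or.inr (Or.inr ⟨by simp, _, hm, by simp, by simpa using hw', rfl⟩)))),
        _, _, List.mem_cons_self⟩

theorem deriv_sound {D : List Ent} (hD : valid D) (φ : FOForm) : ∀ (Q : ℕ) (w : Wit),
    ((φ.code, (Q, w)) : Ent) ∈ D → ∀ e : ℕ → F, Tr e Q ↔ φ.Holds e := by
  have htag : ∀ (x : Ent) (t r : ℕ), x.1 = Nat.pair t r → x.1.unpair.1 = t ∧ x.1.unpair.2 = r := by
    intro x t r h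
    rw [h, Nat.unpair_pair]
    exact ⟨rfl, rfl⟩
  induction φ with
  | eq s t =>
    intro Q w hm e
    have hg := hD _ hm
    obtain ⟨h1, h2⟩ := htag _ _ _ (rfl : ((FOForm.eq s t).code, (Q, w)).1 = _)
    rcases hg with h | h | h | h | h
    · have h3 : Q = (FForm.eq s t).code := h.2
      rw [Tr, h3, holds_iff]
      rfl
    all_goals (exfalso; have h3 := h.1; rw [h1] at h3; omega)
  | not p ih =>
    intro Q w hm e
    have hg := hD _ hm
    obtain ⟨h1, h2⟩ := htag _ _ _ (rfl : ((FOForm.not p).code, (Q, w)).1 = _)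
    rcases hg with h | h | h | h | h
    · exfalso; have h3 := h.1; rw [h1] at h3; omega
    · obtain ⟨-, ⟨y1, y2, y3⟩, hy, h3, h4⟩ := h
      rw [h2] at h3
      have h5 : y1 = p.code := h3
      have h6 : Q = notC y2 := h4
      subst h5
      rw [h6, tr_not, ih y2 y3 hy]
      rfl
    all_goals (exfalso; have h3 := h.1; rw [h1] at h3; omega)
  | and p q ihp ihq =>
    intro Q w hm e
    have hg := hD _ hm
    obtain ⟨h1, h2⟩ := htag _ _ _ (rfl : ((FOForm.and p q).code, (Q, w)).1 = _)
    rcases hg with h | h | h | h | h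
    · exfalso; have h3 := h.1; rw [h1] at h3; omega
    · exfalso; have h3 := h.1; rw [h1] at h3; omega
    · obtain ⟨-, ⟨y1, y2, y3⟩, hy, h3, ⟨z1, z2, z3⟩, hz, h4, h5⟩ := h
      rw [h2, Nat.unpair_pair] at h3 h4
      have h6 : y1 = p.code := h3
      have h7 : z1 = q.code := h4
      have h8 : Q = andC y2 z2 := h5
      subst h6 h7
      rw [h8, tr_and, ihp y2 y3 hy, ihq z2 z3 hz]
      rfl
    all_goals (exfalso; have h3 := h.1; rw [h1] at h3; omega)
  | or p q ihp ihq =>
    intro Q w hm e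
    have hg := hD _ hm
    obtain ⟨h1, h2⟩ := htag _ _ _ (rfl : ((FOForm.or p q).code, (Q, w)).1 = _)
    rcases hg with h | h | h | h | h
    · exfalso; have h3 := h.1; rw [h1] at h3; omega
    · exfalso; have h3 := h.1; rw [h1] at h3; omega
    · exfalso; have h3 := h.1; rw [h1] at h3; omega
    · obtain ⟨-, ⟨y1, y2, y3⟩, hy, h3, ⟨z1, z2, z3⟩, hz, h4, h5⟩ := h
      rw [h2, Nat.unpair_pair] at h3 h4
      have h6 : y1 = p.code := h3
      have h7 : z1 = q.code := h4
      have h8 : Q = orC y2 z2 := h5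
      subst h6 h7
      rw [h8, tr_or, ihp y2 y3 hy, ihq z2 z3 hz]
      rfl
    · exfalso; have h3 := h.1; rw [h1] at h3; omega
  | all i p ih =>
    intro Q w hm e
    have hg := hD _ hm
    obtain ⟨h1, h2⟩ := htag _ _ _ (rfl : ((FOForm.all i p).code, (Q, w)).1 = _)
    rcases hg with h | h | h | h | h
    · exfalso; have h3 := h.1; rw [h1] at h3; omega
    · exfalso; have h3 := h.1; rw [h1] at h3; omega
    · exfalso; have h3 := h.1; rw [h1] at h3; omega
    · exfalso; have h3 := h.1; rw [h1] at h3; omega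
    · obtain ⟨-, ⟨y1, y2, y3⟩, hy, h3, h4, h5⟩ := h
      rw [h2, Nat.unpair_pair] at h3 h4
      have h6 : y1 = p.code := h3
      have h7 : Q = notC (outC w) := h5
      subst h6
      have h8 : elimOK i (notC y2) w := h4
      rw [h7, tr_not, elim_sound h8]
      constructor
      · intro h a
        by_contra hcon
        exact h ⟨a, by rw [tr_not, ih y2 y3 hy]; exact hcon⟩
      · rintro h ⟨a, ha⟩
        rw [tr_not, ih y2 y3 hy] at ha
        exact ha (h a)

/-- everything the search looks for -/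
abbrev Sch : Type := (List Ent × (ℕ × Wit)) × (Cert × CF)

def chk (n : ℕ) (k : Sch) : Prop :=
  valid k.1.1 ∧ (∃ y ∈ k.1.1, y = (n, k.1.2)) ∧ (chkT k.1.2.1 k.2.1 ∨ chkF k.1.2.1 k.2.2)

theorem chk_primrec : PrimrecRel chk := by
  have hk : Primrec fun q : ℕ × Sch => q.2 := snd
  have hD : Primrec fun q : ℕ × Sch => q.2.1.1 := fst.comp (fst.comp hk)
  have hQ : Primrec fun q : ℕ × Sch => q.2.1.2.1 := fst.comp (snd.comp (fst.comp hk))
  refine PrimrecPred.and (valid_primrec.comp hD) (PrimrecPred.and ?_ (PrimrecPred.or ?_ ?_))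
  · have h1 : PrimrecRel fun (y : Ent) (x : Ent) => y = x := Primrec.eq
    exact h1.exists_mem_list.comp hD (Primrec.pair fst (snd.comp (fst.comp hk)))
  · exact chkT_primrec.comp hQ (fst.comp (snd.comp hk))
  · exact chkF_primrec.comp hQ (snd.comp (snd.comp hk))

/-- The elementary theory of an algebraically closed field of characteristic zero is decidable. -/
theorem field_theory_decidable (F : Type*) [Field F] [CharZero F] [IsAlgClosed F] :
    FieldTheoryDecidable F := by
  classical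
  let z : CF := (0, ([], (0, [])), ([], []))
  let z' : Sch := (([], (0, ([], []))), ([], z))
  let d : ℕ → Sch := fun k => (Encodable.decode k).getD z'
  have hd : Primrec d := Primrec.option_getD.comp Primrec.decode (Primrec.const _)
  have hex : ∀ n : ℕ, ∃ k : ℕ, chk n (d k) := by
    intro n
    obtain ⟨D, hD, Q, w, hm⟩ := exists_deriv F n
    have : ∃ K : Cert × CF, chkT Q K.1 ∨ chkF Q K.2 := by
      rcases complete Q with ⟨K, hK⟩ | ⟨K, hK⟩
      · exact ⟨(K, z), Or.inl hK⟩
      · exact ⟨([], K), Or.inr hK⟩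
    obtain ⟨K, hK⟩ := this
    refine ⟨Encodable.encode (((D, (Q, w)), K) : Sch), ?_⟩
    simp only [d, Encodable.encodek, Option.getD_some]
    exact ⟨hD, ⟨_, hm, rfl⟩, hK⟩
  have hP : PrimrecPred fun q : ℕ × ℕ => chk q.1 (d q.2) :=
    chk_primrec.comp Primrec.fst (hd.comp Primrec.snd)
  have hfind : Computable fun n => Nat.find (hex n) :=
    Computable.find (P := fun n k => chk n (d k)) hP.computablePred hex
  have hT : PrimrecPred fun k : ℕ => chkT (d k).1.2.1 (d k).2.1 :=
    chkT_primrec.comp (fst.comp (snd.comp (fst.comp hd))) (fst.comp (snd.comp hd))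
  refine ⟨fun n => decide (chkT (d (Nat.find (hex n))).1.2.1 (d (Nat.find (hex n))).2.1),
    hT.computablePred.decide.comp hfind, ?_⟩
  intro φ _
  rw [decide_eq_true_iff]
  obtain ⟨hD, ⟨y, hy, rfl⟩, hK⟩ := Nat.find_spec (hex φ.code)
  set k := d (Nat.find (hex φ.code)) with hkdef
  have hs : ∀ e : ℕ → F, Tr e k.1.2.1 ↔ φ.Holds e :=
    deriv_sound hD φ k.1.2.1 k.1.2.2 hy
  constructor
  · intro h e
    exact (hs e).1 (soundT h e)
  · intro h
    rcases hK with h1 | h1
    · exact h1
    · exfalso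
      obtain ⟨e, he⟩ := soundF (F := F) h1
      have := (hs e).2 (h e)
      rw [Tr, he] at this
      exact Bool.noConfusion this

end sem

end Pool.Agent.H79
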